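import Pool.Agent.Lib_MP_9e7d46_fk.Two
import Pool.Agent.Lib_MP_9e7d46_co.Final

/-!
# Directed cuts with at least `4 k` arcs
-/

set_option autoImplicit false
set_option linter.unusedSectionVars false

namespace FK9e
open Finset Classical Pool.Agent.DJ9e OS9e

variable {V A : Type} [Fintype V] [Fintype A]

/-- an orientation from a sign vector of a pairing -/
theorem orient_of_sigma {k : ℕ} (s t : A → V)
    (μ : V → V) (hμ : ∀ v, μ (μ v) = v) (hodd : ∀ v, μ v ≠ v ↔ Odd (dd s t {v}))
    (hM : ∀ U : Set V, dM μ U ≤ dd s t U)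
    (σ : V → ℤ) (h1 : ∀ v, σ (μ v) = - σ v) (h2 : ∀ v, μ v ≠ v → σ v = 1 ∨ σ v = -1)
    (h3 : ∀ v, μ v = v → σ v = 0)
    (key : ∀ U : Set V, U.Nonempty → Uᶜ.Nonempty → NoIn s t U →
      |xs σ U| ≤ dd s t U - 2 * k) :
    ∃ O : A → Bool, ∀ U : Set V, U.Nonempty → Uᶜ.Nonempty → Sh s t U → k ≤ inn s t O U := by
  have habs : ∀ v, |σ v| ≤ 1 := by
    intro v
    by_cases h : μ v = v
    · rw [h3 v h]
      simp
    · rcases h2 v h with h | h <;> rw [h] <;> simp
  have htot : xs σ Set.univ = 0 := by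
    have := abs_xs_le μ hμ σ h1 habs Set.univ
    have h0 : dM μ Set.univ = 0 := by
      unfold dM
      exact sum_eq_zero fun u _ => by simp
    rw [h0] at this
    exact abs_eq_zero.1 (le_antisymm this (abs_nonneg _))
  have hcomp : ∀ U : Set V, xs σ Uᶜ = - xs σ U := by
    intro U
    have := xs_add_compl σ U
    rw [htot] at this
    linarith
  obtain ⟨O, hO⟩ := hakimi s t σ (by
    intro u
    by_cases h : μ u = u
    · rw [h3 u h, zero_add]
      have : ¬ Odd (dd s t {u}) := fun hc => (hodd u).2 hc h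
      rw [Int.even_coe_nat]
      exact Nat.not_odd_iff_even.1 this
    · have h5 : Odd (dd s t {u} : ℤ) := (Int.odd_coe_nat _).2 ((hodd u).1 h)
      rcases h2 u h with h | h <;> rw [h]
      · exact odd_one.add_odd h5
      · exact odd_neg_one.add_odd h5) htot (by
    intro U
    refine (le_abs_self _).trans ((abs_xs_le μ hμ σ h1 habs U).trans ?_)
    exact_mod_cast hM U)
  refine ⟨O, fun U hU hUc hS => ?_⟩
  have hb : |xs σ U| ≤ dd s t U - 2 * k := by
    rcases hS with hS | hS
    · exact key U hU hUc hS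
    · have := key Uᶜ hUc (by rwa [compl_compl]) (fun a ha hc => ha (hS a hc))
      rw [hcomp, abs_neg, dd_compl] at this
      exact this
  have h5 := hO U
  have h6 := inn_add_compl s t O U
  have h7 := (abs_le.1 hb).2
  zify
  zify at h6
  linarith

theorem xs_smul (c : ℤ) (x : V → ℤ) (U : Set V) : xs (fun v => c * x v) U = c * xs x U := by
  unfold xs
  rw [mul_sum]
  refine sum_congr rfl fun v _ => ?_
  split_ifs <;> simp

theorem xs_sub' (x y : V → ℤ) (U : Set V) : xs (fun v => x v - y v) U = xs x U - xs y U := by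
  unfold xs
  rw [← sum_sub_distrib]
  refine sum_congr rfl fun v _ => ?_
  split_ifs <;> simp

theorem xs_univ (x : V → ℤ) : xs x Set.univ = ∑ v, x v := by
  unfold xs
  simp

/-- halving the net degrees -/
theorem halve {K : ℕ} (hK : 3 ≤ K) (s t : A → V) (N : Set V)
    (hd : ∀ U : Set V, U.Nonempty → Uᶜ.Nonempty → NoIn s t U → ¬ NSep N U →
      2 * K ≤ dd s t U) :
    ∃ b₁ b₂ : V → ℤ, (∀ v, b₁ v + b₂ v = bb s t v) ∧ xs b₁ Set.univ = 0 ∧
      xs b₂ Set.univ = 0 ∧
      ∀ U : Set V, U.Nonempty → Uᶜ.Nonempty → NoIn s t U → ¬ NSep N U →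
        (K : ℤ) ≤ xs b₁ U ∧ (K : ℤ) ≤ xs b₂ U := by
  rcases isEmpty_or_nonempty V with hV | ⟨⟨r⟩⟩
  · exact ⟨fun _ => 0, fun _ => 0, fun v => (hV.false v).elim, by simp [xs], by simp [xs],
      fun U hU => (hV.false hU.some).elim⟩
  have hbu : xs (bb s t) Set.univ = 0 := by
    rw [xs_bb]
    simp
  have hcompl : ∀ Z : Set V, xs (bb s t) Zᶜ = - xs (bb s t) Z := by
    intro Z
    have := xs_add_compl (bb s t) Z
    linarith
  have nsep_compl : ∀ Z : Set V, ¬ NSep N Z → ¬ NSep N Zᶜ := by
    rintro Z h ⟨⟨n, hn, h1⟩, m, hm, h2⟩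
    exact h ⟨⟨m, hm, by simpa using h2⟩, n, hn, h1⟩
  have noIn_compl : ∀ Z : Set V, NoOut s t Z → NoIn s t Zᶜ := fun Z h a ha hc => ha (h a hc)
  have noOut_compl : ∀ Z : Set V, NoIn s t Z → NoOut s t Zᶜ := fun Z h a ha hc => ha (h a hc)
  have hKpos : (0 : ℤ) ≤ K := by positivity
  obtain ⟨ε, hε1, hε2, hε3, hε4⟩ := slot2 hK s t N r (bb s t) (bb s t) (by
    intro Z hZ hin hN
    by_cases hZc : Zᶜ.Nonempty
    · have h1 : (2 * K : ℤ) ≤ dd s t Z := by exact_mod_cast hd Z hZ hZc hin hN
      rw [xs_bb_noIn s t Z hin]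
      split_ifs <;> linarith
    · rw [Set.not_nonempty_iff_eq_empty, Set.compl_empty_iff] at hZc
      rw [hZc, hbu, if_pos (Set.mem_univ r), zero_add]) (by
    intro Z hZ hout hN
    by_cases hZc : Zᶜ.Nonempty
    · have h1 : (2 * K : ℤ) ≤ dd s t Zᶜ := by
        exact_mod_cast hd Zᶜ hZc (by rwa [compl_compl]) (noIn_compl Z hout) (nsep_compl Z hN)
      rw [xs_bb_noOut s t Z hout]
      rw [dd_compl] at h1
      split_ifs <;> linarith
    · rw [Set.not_nonempty_iff_eq_empty, Set.compl_empty_iff] at hZc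
      rw [hZc, hbu, if_pos (Set.mem_univ r), zero_add]) Sum.swap (fun p => Sum.swap_swap p) (by
    rintro (v | v) <;> rfl)
  have hs : ∃ σ : V → ℤ, ∀ v, σ v = if Odd (bb s t v) then ε (Sum.inl v) else 0 := ⟨_, fun _ => rfl⟩
  obtain ⟨σ, hσ⟩ := hs
  have e1 : (fun v => if Odd (bb s t v) then ε (Sum.inl v) else 0) = σ := by
    funext v
    rw [hσ]
  have e2 : (fun v => if Odd (bb s t v) then ε (Sum.inr v) else 0) = fun v => - σ v := by
    funext v
    rw [hσ]
    by_cases ho : Odd (bb s t v)
    · rw [if_pos ho, if_pos ho]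
      exact hε2 (Sum.inl v) ho (by simp)
    · rw [if_neg ho, if_neg ho, neg_zero]
  rw [e1] at hε3
  rw [e2] at hε4
  have hσu : xs σ Set.univ = 0 := by
    have := hε3 Set.univ ⟨r, trivial⟩ (fun _ _ => trivial) (fun ⟨_, m, _, h⟩ => h trivial)
    rw [hbu, if_pos (Set.mem_univ r)] at this
    have h0 : |xs σ Set.univ| ≤ 0 := by linarith
    exact abs_eq_zero.1 (le_antisymm h0 (abs_nonneg _))
  have hbd : ∀ U : Set V, U.Nonempty → Uᶜ.Nonempty → NoIn s t U → ¬ NSep N U →
      |xs σ U| ≤ xs (bb s t) U - 2 * K := by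
    intro U hU hUc hin hN
    by_cases hr : r ∈ U
    · have h1 := hε4 Uᶜ hUc (noOut_compl U hin) (nsep_compl U hN)
      rw [if_neg (fun h => h hr), xs_neg', abs_neg, hcompl] at h1
      have h2 : xs σ Uᶜ = - xs σ U := by
        have := xs_add_compl σ U
        linarith
      rw [h2, abs_neg] at h1
      linarith
    · have h1 := hε3 U hU hin hN
      rw [if_neg hr] at h1
      linarith
  have hex : ∀ v, ∃ m : ℤ, 2 * m = bb s t v - σ v := by
    intro v
    by_cases ho : Odd (bb s t v)
    · obtain ⟨m, hm⟩ := ho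
      rcases hε1 (Sum.inl v) with h | h
      · exact ⟨m, by rw [hσ, if_pos ⟨m, hm⟩, h]; omega⟩
      · exact ⟨m + 1, by rw [hσ, if_pos ⟨m, hm⟩, h]; omega⟩
    · obtain ⟨m, hm⟩ := Int.not_odd_iff_even.1 ho
      exact ⟨m, by rw [hσ, if_neg ho]; omega⟩
  choose b₁ hb₁ using hex
  have hx1 : ∀ U : Set V, 2 * xs b₁ U = xs (bb s t) U - xs σ U := by
    intro U
    rw [← xs_smul, ← xs_sub']
    congr 1
    funext v
    exact hb₁ v
  have hx2 : ∀ U : Set V, xs (fun v => bb s t v - b₁ v) U = xs (bb s t) U - xs b₁ U :=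
    fun U => xs_sub' _ _ U
  refine ⟨b₁, fun v => bb s t v - b₁ v, fun v => by ring, ?_, ?_, fun U hU hUc hin hN => ?_⟩
  · have := hx1 Set.univ
    rw [hbu, hσu] at this
    linarith
  · have := hx1 Set.univ
    rw [hx2, hbu]
    rw [hbu, hσu] at this
    linarith
  · have h1 := hx1 U
    have h2 := hx2 U
    have h3 := abs_le.1 (hbd U hU hUc hin hN)
    rw [h2]
    constructor <;> linarith

/-- Directed cuts have at least `2 k` arcs, those which do not separate two members of the linked
class `N` have at least `4 k` arcs. -/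
theorem four {k : ℕ} (hk : 3 ≤ k) (s t : A → V) (N : Set V)
    (hd : ∀ U : Set V, U.Nonempty → Uᶜ.Nonempty → NoIn s t U → 2 * k ≤ dd s t U)
    (hN : ∀ U : Set V, NSep N U → 2 * k ≤ dd s t U)
    (hd4 : ∀ U : Set V, U.Nonempty → Uᶜ.Nonempty → NoIn s t U → ¬ NSep N U →
      4 * k ≤ dd s t U) :
    ∃ O : A → Bool, ∀ U : Set V, U.Nonempty → Uᶜ.Nonempty → Sh s t U → k ≤ inn s t O U := by
  have hSh : ∀ U : Set V, U.Nonempty → Uᶜ.Nonempty → Sh s t U → 2 * k ≤ dd s t U := by
    intro U hU hUc hS
    rcases hS with hS | hS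
    · exact hd U hU hUc hS
    · rw [← dd_compl]
      exact hd Uᶜ hUc (by rwa [compl_compl]) (fun a ha hc => ha (hS a hc))
  obtain ⟨μ, hμ⟩ := pair_induction (A := A) k (by omega) _ V s t N rfl (fun U hU hUc =>
    ⟨two_le_dd s t k (by omega) hSh U hU hUc, fun h => hN U h⟩)
  have hdM0 : ∀ U : Set V, dM μ U ≤ dd s t U := by
    intro U
    rcases U.eq_empty_or_nonempty with h | h
    · rw [h]
      unfold dM
      simp
    rcases Uᶜ.eq_empty_or_nonempty with h' | h'
    · rw [Set.compl_empty_iff] at h'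
      rw [h']
      unfold dM
      simp
    · have := (hμ.bd U h h').1
      omega
  rcases isEmpty_or_nonempty V with hV | ⟨⟨r⟩⟩
  · exact ⟨fun _ => true, fun U hU => (hV.false hU.some).elim⟩
  obtain ⟨b₁, b₂, hb, hb1u, hb2u, hbU⟩ := halve (K := 2 * k) (by omega) s t N
    (fun U hU hUc hin h => by have := hd4 U hU hUc hin h; omega)
  have hinv := hμ.invol
  have hodd : ∀ v, μ v ≠ v ↔ Odd (bb s t v) := fun v => by rw [odd_bb]; exact hμ.odd v
  have nsep_compl : ∀ Z : Set V, ¬ NSep N Z → ¬ NSep N Zᶜ := by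
    rintro Z h ⟨⟨n, hn, h1⟩, m, hm, h2⟩
    exact h ⟨⟨m, hm, by simpa using h2⟩, n, hn, h1⟩
  have noIn_compl : ∀ Z : Set V, NoOut s t Z → NoIn s t Zᶜ := fun Z h a ha hc => ha (h a hc)
  have noOut_compl : ∀ Z : Set V, NoIn s t Z → NoOut s t Zᶜ := fun Z h a ha hc => ha (h a hc)
  -- the odd slot of an odd vertex
  let sl : V → V ⊕ V := fun v => if Odd (b₁ v) then Sum.inl v else Sum.inr v
  let pr : V ⊕ V → V := Sum.elim id id
  have hprsl : ∀ v, pr (sl v) = v := by
    intro v
    simp only [sl]
    split_ifs <;> rfl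
  have hxor : ∀ v, Odd (bb s t v) ↔ (Odd (b₁ v) ↔ ¬ Odd (b₂ v)) := by
    intro v
    rw [← hb, Int.odd_add, ← Int.not_odd_iff_even]
  let ν : V ⊕ V → V ⊕ V := fun p => if Odd (bb s t (pr p)) then
    (if p = sl (pr p) then sl (μ (pr p)) else p) else p.swap
  have hoddμ : ∀ v, Odd (bb s t (μ v)) ↔ Odd (bb s t v) := by
    intro v
    rw [← hodd, ← hodd, hinv]
    exact ⟨fun h h' => h h'.symm, fun h h' => h h'.symm⟩
  have hνν : ∀ p, ν (ν p) = p := by
    intro p
    by_cases ho : Odd (bb s t (pr p))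
    · by_cases hp : p = sl (pr p)
      · have h1 : ν p = sl (μ (pr p)) := by
          show (if Odd (bb s t (pr p)) then (if p = sl (pr p) then sl (μ (pr p)) else p) else
            p.swap) = _
          rw [if_pos ho, if_pos hp]
        rw [h1]
        show (if Odd (bb s t (pr (sl (μ (pr p))))) then (if sl (μ (pr p)) =
          sl (pr (sl (μ (pr p)))) then sl (μ (pr (sl (μ (pr p))))) else sl (μ (pr p))) else
          (sl (μ (pr p))).swap) = p
        rw [hprsl, if_pos ((hoddμ _).2 ho), if_pos rfl, hinv]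
        exact hp.symm
      · have h1 : ν p = p := by
          show (if Odd (bb s t (pr p)) then (if p = sl (pr p) then sl (μ (pr p)) else p) else
            p.swap) = _
          rw [if_pos ho, if_neg hp]
        rw [h1, h1]
    · have h1 : ν p = p.swap := by
        show (if Odd (bb s t (pr p)) then (if p = sl (pr p) then sl (μ (pr p)) else p) else
          p.swap) = _
        rw [if_neg ho]
      have h2 : pr p.swap = pr p := by
        rcases p with v | v <;> rfl
      rw [h1]
      show (if Odd (bb s t (pr p.swap)) then (if p.swap = sl (pr p.swap) then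
        sl (μ (pr p.swap)) else p.swap) else p.swap.swap) = p
      rw [h2, if_neg ho, Sum.swap_swap]
  have hslodd : ∀ v, Odd (bb s t v) → Odd (Sum.elim b₁ b₂ (sl v)) := by
    intro v ho
    by_cases h1 : Odd (b₁ v)
    · have : sl v = Sum.inl v := if_pos h1
      rw [this]
      exact h1
    · have : sl v = Sum.inr v := if_neg h1
      rw [this]
      have := (hxor v).1 ho
      show Odd (b₂ v)
      tauto
  have hνodd : ∀ p, Odd (Sum.elim b₁ b₂ (ν p)) ↔ Odd (Sum.elim b₁ b₂ p) := by
    intro p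
    by_cases ho : Odd (bb s t (pr p))
    · by_cases hp : p = sl (pr p)
      · have h1 : ν p = sl (μ (pr p)) := by
          show (if Odd (bb s t (pr p)) then (if p = sl (pr p) then sl (μ (pr p)) else p) else
            p.swap) = _
          rw [if_pos ho, if_pos hp]
        rw [h1]
        constructor
        · intro _
          rw [hp]
          exact hslodd _ ho
        · intro _
          exact hslodd _ ((hoddμ _).2 ho)
      · have h1 : ν p = p := by
          show (if Odd (bb s t (pr p)) then (if p = sl (pr p) then sl (μ (pr p)) else p) else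
            p.swap) = _
          rw [if_pos ho, if_neg hp]
        rw [h1]
    · have h1 : ν p = p.swap := by
        show (if Odd (bb s t (pr p)) then (if p = sl (pr p) then sl (μ (pr p)) else p) else
          p.swap) = _
        rw [if_neg ho]
      rw [h1]
      rcases p with v | v
      · have h3 := hxor v
        have h4 : ¬ Odd (bb s t v) := ho
        show Odd (b₂ v) ↔ Odd (b₁ v)
        tauto
      · have h3 := hxor v
        have h4 : ¬ Odd (bb s t v) := ho
        show Odd (b₁ v) ↔ Odd (b₂ v)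
        tauto
  have hkpos : (0 : ℤ) ≤ k := by positivity
  obtain ⟨ε, hε1, hε2, hε3, hε4⟩ := slot2 hk s t N r b₁ b₂ (by
    intro Z hZ hin hNZ
    by_cases hZc : Zᶜ.Nonempty
    · have h1 := (hbU Z hZ hZc hin hNZ).1
      push_cast at h1
      split_ifs <;> linarith
    · rw [Set.not_nonempty_iff_eq_empty, Set.compl_empty_iff] at hZc
      rw [hZc, hb1u, if_pos (Set.mem_univ r), zero_add]) (by
    intro Z hZ hout hNZ
    by_cases hZc : Zᶜ.Nonempty
    · have h1 := (hbU Zᶜ hZc (by rwa [compl_compl]) (noIn_compl Z hout) (nsep_compl Z hNZ)).2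
      have h2 := xs_add_compl b₂ Z
      push_cast at h1
      split_ifs <;> linarith
    · rw [Set.not_nonempty_iff_eq_empty, Set.compl_empty_iff] at hZc
      rw [hZc, hb2u, if_pos (Set.mem_univ r), zero_add]) ν hνν hνodd
  -- the sign vector
  let σ : V → ℤ := fun v => (if Odd (b₁ v) then ε (Sum.inl v) else 0) +
    (if Odd (b₂ v) then ε (Sum.inr v) else 0)
  have hσodd : ∀ v, Odd (bb s t v) → σ v = ε (sl v) := by
    intro v ho
    have h1 := (hxor v).1 ho
    by_cases h2 : Odd (b₁ v)
    · have h3 : ¬ Odd (b₂ v) := h1.1 h2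
      show (if Odd (b₁ v) then ε (Sum.inl v) else 0) +
        (if Odd (b₂ v) then ε (Sum.inr v) else 0) = ε (if Odd (b₁ v) then Sum.inl v else Sum.inr v)
      rw [if_pos h2, if_neg h3, if_pos h2, add_zero]
    · have h3 : Odd (b₂ v) := by tauto
      show (if Odd (b₁ v) then ε (Sum.inl v) else 0) +
        (if Odd (b₂ v) then ε (Sum.inr v) else 0) = ε (if Odd (b₁ v) then Sum.inl v else Sum.inr v)
      rw [if_neg h2, if_pos h3, if_neg h2, zero_add]
  have hσeven : ∀ v, ¬ Odd (bb s t v) → σ v = 0 := by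
    intro v ho
    have h1 := hxor v
    by_cases h2 : Odd (b₁ v)
    · have h3 : Odd (b₂ v) := by tauto
      have h4 : ν (Sum.inl v) = Sum.inr v := by
        show (if Odd (bb s t v) then (if Sum.inl v = sl v then sl (μ v) else Sum.inl v) else
          Sum.inr v) = _
        rw [if_neg ho]
      have h5 := hε2 (Sum.inl v) h2 (by rw [h4]; simp)
      rw [h4] at h5
      show (if Odd (b₁ v) then ε (Sum.inl v) else 0) +
        (if Odd (b₂ v) then ε (Sum.inr v) else 0) = 0
      rw [if_pos h2, if_pos h3, h5]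
      ring
    · have h3 : ¬ Odd (b₂ v) := by tauto
      show (if Odd (b₁ v) then ε (Sum.inl v) else 0) +
        (if Odd (b₂ v) then ε (Sum.inr v) else 0) = 0
      rw [if_neg h2, if_neg h3, add_zero]
  refine orient_of_sigma s t μ hinv hμ.odd hdM0 σ ?_ ?_ ?_ ?_
  · intro v
    by_cases ho : Odd (bb s t v)
    · rw [hσodd v ho, hσodd _ ((hoddμ v).2 ho)]
      have h1 : ν (sl v) = sl (μ v) := by
        show (if Odd (bb s t (pr (sl v))) then (if sl v = sl (pr (sl v)) then
          sl (μ (pr (sl v))) else sl v) else (sl v).swap) = _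
        rw [hprsl, if_pos ho, if_pos rfl]
      rw [← h1]
      refine hε2 _ (hslodd v ho) ?_
      rw [h1]
      intro h2
      apply (hodd v).2 ho
      rw [← hprsl (μ v), h2, hprsl]
    · have h1 : μ v = v := by
        by_contra hc
        exact ho ((hodd v).1 hc)
      rw [h1, hσeven v ho, neg_zero]
  · intro v hv
    rw [hσodd v ((hodd v).1 hv)]
    exact hε1 _
  · intro v hv
    exact hσeven v (fun h => (hodd v).2 h hv)
  · intro U hU hUc hin
    by_cases hNU : NSep N U
    · have h5 := abs_xs_le μ hinv σ (by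
        intro v
        by_cases ho : Odd (bb s t v)
        · rw [hσodd v ho, hσodd _ ((hoddμ v).2 ho)]
          have h1 : ν (sl v) = sl (μ v) := by
            show (if Odd (bb s t (pr (sl v))) then (if sl v = sl (pr (sl v)) then
              sl (μ (pr (sl v))) else sl v) else (sl v).swap) = _
            rw [hprsl, if_pos ho, if_pos rfl]
          rw [← h1]
          refine hε2 _ (hslodd v ho) ?_
          rw [h1]
          intro h2
          apply (hodd v).2 ho
          rw [← hprsl (μ v), h2, hprsl]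
        · have h1 : μ v = v := by
            by_contra hc
            exact ho ((hodd v).1 hc)
          rw [h1, hσeven v ho, neg_zero]) (by
        intro v
        by_cases ho : Odd (bb s t v)
        · rw [hσodd v ho]
          rcases hε1 (sl v) with h | h <;> rw [h] <;> simp
        · rw [hσeven v ho]
          simp) U
      have h6 : (dM μ U : ℤ) + 2 * k ≤ dd s t U := by
        exact_mod_cast (hμ.bd U hU hUc).2 hNU
      linarith
    · have h1 := hε3 U hU hin hNU
      have h2 := hε4 Uᶜ hUc (noOut_compl U hin) (nsep_compl U hNU)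
      have h3 : xs σ U = xs (fun v => if Odd (b₁ v) then ε (Sum.inl v) else 0) U +
          xs (fun v => if Odd (b₂ v) then ε (Sum.inr v) else 0) U := xs_add' _ _ _
      have h4 := xs_add_compl (fun v => if Odd (b₂ v) then ε (Sum.inr v) else 0) U
      have h5 : xs (fun v => if Odd (b₂ v) then ε (Sum.inr v) else 0) Set.univ = 0 := by
        have h6 := hε4 Set.univ ⟨r, trivial⟩ (fun _ _ => trivial)
          (fun ⟨_, m, _, h⟩ => h trivial)
        rw [hb2u, if_pos (Set.mem_univ r)] at h6
        have h7 : |xs (fun v => if Odd (b₂ v) then ε (Sum.inr v) else 0) Set.univ| ≤ 0 := by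
          linarith
        exact abs_eq_zero.1 (le_antisymm h7 (abs_nonneg _))
      rw [h5] at h4
      have h6 := abs_add_le (xs (fun v => if Odd (b₁ v) then ε (Sum.inl v) else 0) U)
        (xs (fun v => if Odd (b₂ v) then ε (Sum.inr v) else 0) U)
      have h7 : |xs (fun v => if Odd (b₂ v) then ε (Sum.inr v) else 0) Uᶜ| =
          |xs (fun v => if Odd (b₂ v) then ε (Sum.inr v) else 0) U| := by
        rw [show xs (fun v => if Odd (b₂ v) then ε (Sum.inr v) else 0) Uᶜ =
          - xs (fun v => if Odd (b₂ v) then ε (Sum.inr v) else 0) U by linarith, abs_neg]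
      have h8 := xs_add_compl b₂ U
      have h9 : xs b₁ U + xs b₂ U = dd s t U := by
        rw [← xs_add', ← xs_bb_noIn s t U hin]
        congr 1
        funext v
        exact hb v
      rw [h7] at h2
      rw [h3]
      by_cases hr : r ∈ U
      · rw [if_pos hr] at h1
        rw [if_neg (fun h => h hr)] at h2
        linarith
      · rw [if_neg hr] at h1
        rw [if_pos (show r ∈ Uᶜ from hr)] at h2
        linarith

end FK9e
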