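import Pool.Agent.Lib_MP_9e7d46_fk.Sub

/-!
# Every `4 k`-dijoin is the union of two disjoint `k`-dijoins (`k ≥ 3`); partition into many dijoins
-/

set_option autoImplicit false
set_option linter.unusedSectionVars false

namespace FK9e
open Finset Classical Pool.Agent.DJ9e OS9e

variable {V A : Type} [Fintype V] [Fintype A]

/-- arcs of `J` leaving `S` -/
def lvs (s t : A → V) (J : Set A) (S : Set V) : Set A := {a | a ∈ J ∧ s a ∈ S ∧ t a ∉ S}

/-- the relation of weak connectivity -/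
def wk (s t : A → V) : Setoid V := Relation.EqvGen.setoid fun x y => ∃ a, s a = x ∧ t a = y

/-- a representative of the weak component -/
noncomputable def rep (s t : A → V) (v : V) : V :=
  (Quotient.mk (wk s t) v).out

theorem rep_rel (s t : A → V) (v : V) : (wk s t) (rep s t v) v := by
  have : Quotient.mk (wk s t) (rep s t v) = Quotient.mk (wk s t) v := Quotient.out_eq _
  exact Quotient.exact this

theorem rep_eq {s t : A → V} {u v : V} (h : (wk s t) u v) : rep s t u = rep s t v := by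
  unfold rep
  rw [Quotient.sound h]

theorem wk_arc (s t : A → V) (a : A) : (wk s t) (s a) (t a) :=
  Relation.EqvGen.rel _ _ ⟨a, rfl, rfl⟩

theorem wk_closed {s t : A → V} {U : Set V} (h : ∀ a, s a ∈ U ↔ t a ∈ U) {u v : V}
    (huv : (wk s t) u v) : u ∈ U ↔ v ∈ U := by
  have huv' : Relation.EqvGen (fun x y => ∃ a, s a = x ∧ t a = y) u v := huv
  induction huv' with
  | rel x y hxy =>
    obtain ⟨a, rfl, rfl⟩ := hxy
    exact h a
  | refl x => rfl
  | symm x y h1 ih => exact (ih (h1)).symm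
  | trans x y z h1 h2 ih1 ih2 => exact (ih1 h1).trans (ih2 h2)

/-- the set of representatives -/
def NN (s t : A → V) : Set V := Set.range (rep s t)

/-- a source side not separating the representatives has a nonempty cut -/
theorem exists_leaving {s t : A → V} {U : Set V} (hU : U.Nonempty) (hUc : Uᶜ.Nonempty)
    (hin : NoIn s t U) (hN : ¬ NSep (NN s t) U) : ∃ a, s a ∈ U ∧ t a ∉ U := by
  by_contra hc
  push Not at hc
  have h : ∀ a, s a ∈ U ↔ t a ∈ U := fun a => ⟨fun h => hc a h, fun h => hin a h⟩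
  obtain ⟨u, hu⟩ := hU
  obtain ⟨v, hv⟩ := hUc
  refine hN ⟨⟨rep s t u, ⟨u, rfl⟩, ?_⟩, rep s t v, ⟨v, rfl⟩, ?_⟩
  · exact (wk_closed h (rep_rel s t u)).2 hu
  · exact fun h' => hv ((wk_closed h (rep_rel s t v)).1 h')

/-- reduction of a directed cut to one which does not separate the representatives -/
theorem reduce_cut {s t : A → V} {S : Set V} (hin : NoIn s t S) {a0 : A} (h1 : s a0 ∈ S)
    (h2 : t a0 ∉ S) : ∃ U : Set V, U.Nonempty ∧ Uᶜ.Nonempty ∧ NoIn s t U ∧
      ¬ NSep (NN s t) U ∧ ∀ a, s a ∈ U → t a ∉ U → s a ∈ S ∧ t a ∉ S := by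
  obtain ⟨C, hC⟩ : ∃ C : Set V, C = {v | (wk s t) (s a0) v} := ⟨_, rfl⟩
  have hCa : ∀ a, s a ∈ C ↔ t a ∈ C := by
    intro a
    rw [hC]
    exact ⟨fun h => (wk s t).trans h (wk_arc s t a),
      fun h => (wk s t).trans h ((wk s t).symm (wk_arc s t a))⟩
  have hsC : s a0 ∈ C := by
    rw [hC]
    exact (wk s t).refl _
  have htC : t a0 ∈ C := (hCa a0).1 hsC
  have hrep : ∀ v, rep s t v ∈ C → rep s t v = rep s t (s a0) := by
    intro v hv
    rw [hC] at hv
    have h3 : (wk s t) (s a0) v := (wk s t).trans hv (rep_rel s t v)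
    exact (rep_eq h3).symm
  by_cases hr : rep s t (s a0) ∈ S
  · refine ⟨(S ∩ C) ∪ Cᶜ, ⟨s a0, Or.inl ⟨h1, hsC⟩⟩, ⟨t a0, ?_⟩, ?_, ?_, ?_⟩
    · rintro (⟨h3, -⟩ | h3)
      · exact h2 h3
      · exact h3 htC
    · rintro a (⟨h3, h4⟩ | h3)
      · exact Or.inl ⟨hin a h3, (hCa a).2 h4⟩
      · exact Or.inr fun h4 => h3 ((hCa a).1 h4)
    · rintro ⟨-, n, ⟨v, rfl⟩, hv⟩
      apply hv
      by_cases h3 : rep s t v ∈ C
      · left
        exact ⟨by rw [hrep v h3]; exact hr, h3⟩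
      · exact Or.inr h3
    · rintro a (⟨h3, h4⟩ | h3) h5
      · refine ⟨h3, fun h6 => h5 (Or.inl ⟨h6, (hCa a).1 h4⟩)⟩
      · exact absurd (Or.inr fun h4 => h3 ((hCa a).2 h4)) h5
  · refine ⟨S ∩ C, ⟨s a0, h1, hsC⟩, ⟨t a0, fun h3 => h2 h3.1⟩, ?_, ?_, ?_⟩
    · rintro a ⟨h3, h4⟩
      exact ⟨hin a h3, (hCa a).2 h4⟩
    · rintro ⟨⟨n, ⟨v, rfl⟩, hv⟩, -⟩
      apply hr
      rw [← hrep v hv.2]
      exact hv.1
    · rintro a ⟨h3, h4⟩ h5
      exact ⟨h3, fun h6 => h5 ⟨h6, (hCa a).1 h4⟩⟩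

/-- Every `4 k`-dijoin `J`, `k ≥ 3`, is the union of two disjoint `k`-dijoins. -/
theorem split_dijoin {k : ℕ} (hk : 3 ≤ k) (s t : A → V) (J : Set A)
    (hJ : ∀ S : Set V, NoIn s t S → (∃ a, s a ∈ S ∧ t a ∉ S) → 4 * k ≤ (lvs s t J S).ncard) :
    ∃ J₁ J₂ : Set A, J₁ ∪ J₂ = J ∧ Disjoint J₁ J₂ ∧
      ∀ S : Set V, NoIn s t S → (∃ a, s a ∈ S ∧ t a ∉ S) →
        k ≤ (lvs s t J₁ S).ncard ∧ k ≤ (lvs s t J₂ S).ncard := by
  let B : Type := {a : A // a ∈ J}
  let s' : B → V := fun a => s a.1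
  let t' : B → V := fun a => t a.1
  have hdd : ∀ U : Set V, NoIn s t U → dd s' t' U = (lvs s t J U).ncard := by
    intro U hin
    unfold dd
    have e1 : (lvs s t J U) = ((univ.filter fun a : B => ¬ (s' a ∈ U ↔ t' a ∈ U)).map
        (Function.Embedding.subtype _) : Finset A) := by
      ext a
      simp only [lvs, Set.mem_ofPred_eq, coe_map, Function.Embedding.subtype_apply, Set.mem_image,
        mem_coe, mem_filter, mem_univ, true_and]
      constructor
      · rintro ⟨h1, h2, h3⟩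
        exact ⟨⟨a, h1⟩, fun h => h3 (h.1 h2), rfl⟩
      · rintro ⟨⟨a', h1⟩, h2, rfl⟩
        have h3 := hin a'
        refine ⟨h1, ?_⟩
        by_cases h4 : s a' ∈ U
        · exact ⟨h4, fun h5 => h2 ⟨fun _ => h5, fun _ => h4⟩⟩
        · exact absurd ⟨fun h => absurd h h4, fun h => h3 h⟩ h2
    rw [e1, Set.ncard_coe_finset, card_map, card_filter]
    refine sum_congr rfl fun a _ => ?_
    by_cases h : (s' a ∈ U ↔ t' a ∈ U) <;> simp [h]
  obtain ⟨O, hO⟩ := four_sub hk s t s' t' (fun e => ⟨e.1, rfl, rfl⟩) (NN s t) (by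
    intro U hU hUc hin hN
    rw [hdd U hin]
    exact hJ U hin (exists_leaving hU hUc hin hN))
  refine ⟨{a | ∃ h : a ∈ J, O ⟨a, h⟩ = true}, {a | ∃ h : a ∈ J, O ⟨a, h⟩ = false}, ?_, ?_, ?_⟩
  · ext a
    constructor
    · rintro (⟨h, -⟩ | ⟨h, -⟩) <;> exact h
    · intro h
      cases h1 : O ⟨a, h⟩
      · exact Or.inr ⟨h, h1⟩
      · exact Or.inl ⟨h, h1⟩
  · rw [Set.disjoint_left]
    rintro a ⟨h, h1⟩ ⟨h', h2⟩
    rw [h1] at h2
    exact absurd h2 (by simp)
  · intro S hin ⟨a0, h1, h2⟩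
    obtain ⟨U, hU, hUc, hinU, hN, hsub⟩ := reduce_cut hin h1 h2
    obtain ⟨h3, h4⟩ := hO U hU hUc hinU hN
    obtain ⟨W, hW⟩ : ∃ W : Set V, W = Uᶜ := ⟨_, rfl⟩
    rw [← hW] at h4
    have hW' : ∀ v, v ∈ W ↔ v ∉ U := by
      intro v
      rw [hW]
      rfl
    have g1 : inn s' t' O W ≤ (lvs s t {a | ∃ h : a ∈ J, O ⟨a, h⟩ = true} S).ncard := by
      unfold inn
      rw [← card_filter, ← card_map (Function.Embedding.subtype _), ← Set.ncard_coe_finset]
      refine Set.ncard_le_ncard ?_ (Set.toFinite _)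
      intro a ha
      simp only [coe_map, Function.Embedding.subtype_apply, Set.mem_image,
        mem_coe, mem_filter, mem_univ, true_and] at ha
      obtain ⟨⟨a', h5⟩, ⟨h6, h7⟩, rfl⟩ := ha
      rw [hW'] at h6 h7
      rw [not_not] at h7
      unfold hd at h6
      unfold tl at h7
      cases h8 : O ⟨a', h5⟩
      · rw [h8] at h6 h7
        simp only [cond_false] at h6 h7
        exact absurd (hinU a' h7) h6
      · rw [h8] at h6 h7
        simp only [cond_true] at h6 h7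
        exact ⟨⟨h5, h8⟩, hsub a' h7 h6⟩
    have g2 : inn s' t' O U ≤ (lvs s t {a | ∃ h : a ∈ J, O ⟨a, h⟩ = false} S).ncard := by
      unfold inn
      rw [← card_filter, ← card_map (Function.Embedding.subtype _), ← Set.ncard_coe_finset]
      refine Set.ncard_le_ncard ?_ (Set.toFinite _)
      intro a ha
      simp only [coe_map, Function.Embedding.subtype_apply, Set.mem_image,
        mem_coe, mem_filter, mem_univ, true_and] at ha
      obtain ⟨⟨a', h5⟩, ⟨h6, h7⟩, rfl⟩ := ha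
      unfold hd at h6
      unfold tl at h7
      cases h8 : O ⟨a', h5⟩
      · rw [h8] at h6 h7
        simp only [cond_false] at h6 h7
        exact ⟨⟨h5, h8⟩, hsub a' h6 h7⟩
      · rw [h8] at h6 h7
        simp only [cond_true] at h6 h7
        exact absurd (hinU a' h6) h7
    exact ⟨h4.trans g1, h3.trans g2⟩

/-- Every `3 * 4 ^ m`-dijoin contains `m + 1` disjoint dijoins. -/
theorem many (s t : A → V) (m : ℕ) : ∀ J : Set A,
    (∀ S : Set V, NoIn s t S → (∃ a, s a ∈ S ∧ t a ∉ S) → 3 * 4 ^ m ≤ (lvs s t J S).ncard) →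
    ∃ c : A → Fin (m + 1), ∀ i, ∀ S : Set V, NoIn s t S → (∃ a, s a ∈ S ∧ t a ∉ S) →
      ∃ a ∈ J, c a = i ∧ s a ∈ S ∧ t a ∉ S := by
  induction m with
  | zero =>
    intro J hJ
    refine ⟨fun _ => 0, fun i S hin hS => ?_⟩
    have h1 := hJ S hin hS
    have h2 : (lvs s t J S).Nonempty := by
      rw [← Set.ncard_pos]
      omega
    obtain ⟨a, h3, h4, h5⟩ := h2
    exact ⟨a, h3, Fin.ext (by omega), h4, h5⟩
  | succ m ih =>
    intro J hJ
    obtain ⟨J₁, J₂, h12, hdis, h⟩ := split_dijoin (k := 3 * 4 ^ m)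
      (by have := Nat.one_le_pow m 4 (by norm_num); omega) s t J (by
      intro S hin hS
      have := hJ S hin hS
      rw [pow_succ] at this
      omega)
    obtain ⟨c, hc⟩ := ih J₂ (fun S hin hS => (h S hin hS).2)
    refine ⟨fun a => if a ∈ J₁ then Fin.last (m + 1) else (c a).castSucc, fun i S hin hS => ?_⟩
    refine Fin.lastCases ?_ (fun j => ?_) i
    · have h1 := (h S hin hS).1
      have h2 : (lvs s t J₁ S).Nonempty := by
        rw [← Set.ncard_pos]
        have := Nat.one_le_pow m 4 (by norm_num)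
        omega
      obtain ⟨a, h3, h4, h5⟩ := h2
      refine ⟨a, ?_, if_pos h3, h4, h5⟩
      rw [← h12]
      exact Or.inl h3
    · obtain ⟨a, h3, h4, h5, h6⟩ := hc j S hin hS
      refine ⟨a, ?_, ?_, h5, h6⟩
      · rw [← h12]
        exact Or.inr h3
      · have h7 : a ∉ J₁ := fun h8 => Set.disjoint_left.1 hdis h8 h3
        show (if a ∈ J₁ then Fin.last (m + 1) else (c a).castSucc) = j.castSucc
        rw [if_neg h7, h4]

end FK9e
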