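import Pool.Agent.Lib_MP_9e7d46_fk.Four
import Pool.Agent.Lib_MP_9e7d46_os.Flow

/-!
# A subset `F` of the arcs with at least `4 k` arcs in every directed cut

The digraph is `s t : A → V`; the set `F` of arcs is given by `s' t' : B → V`, every arc of `B` being
parallel to an arc of `A`.
-/

set_option autoImplicit false
set_option linter.unusedSectionVars false

namespace FK9e
open Finset Classical Pool.Agent.DJ9e OS9e

variable {V A B : Type} [Fintype V] [Fintype A] [Fintype B]

theorem nsep_compl {N Z : Set V} (h : ¬ NSep N Z) : ¬ NSep N Zᶜ := by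
  rintro ⟨⟨n, hn, h1⟩, m, hm, h2⟩
  exact h ⟨⟨m, hm, by simpa using h2⟩, n, hn, h1⟩

theorem noIn_compl {s t : A → V} {Z : Set V} (h : NoOut s t Z) : NoIn s t Zᶜ :=
  fun a ha hc => ha (h a hc)

theorem noOut_compl {s t : A → V} {Z : Set V} (h : NoIn s t Z) : NoOut s t Zᶜ :=
  fun a ha hc => ha (h a hc)

/-- halving a vector -/
theorem halve_vec {K : ℕ} (hK : 3 ≤ K) (s t : A → V) (N : Set V) (b : V → ℤ)
    (hbu : xs b Set.univ = 0)
    (hd : ∀ U : Set V, U.Nonempty → Uᶜ.Nonempty → NoIn s t U → ¬ NSep N U →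
      (2 * K : ℤ) ≤ xs b U) :
    ∃ b₁ b₂ : V → ℤ, (∀ v, b₁ v + b₂ v = b v) ∧ xs b₁ Set.univ = 0 ∧
      xs b₂ Set.univ = 0 ∧
      ∀ U : Set V, U.Nonempty → Uᶜ.Nonempty → NoIn s t U → ¬ NSep N U →
        (K : ℤ) ≤ xs b₁ U ∧ (K : ℤ) ≤ xs b₂ U := by
  rcases isEmpty_or_nonempty V with hV | ⟨⟨r⟩⟩
  · exact ⟨fun _ => 0, fun _ => 0, fun v => (hV.false v).elim, by simp [xs], by simp [xs],
      fun U hU => (hV.false hU.some).elim⟩
  have hcompl : ∀ Z : Set V, xs b Zᶜ = - xs b Z := by
    intro Z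
    have := xs_add_compl b Z
    linarith
  have hKpos : (0 : ℤ) ≤ K := by positivity
  obtain ⟨ε, hε1, hε2, hε3, hε4⟩ := slot2 hK s t N r b b (by
    intro Z hZ hin hN
    by_cases hZc : Zᶜ.Nonempty
    · have h1 := hd Z hZ hZc hin hN
      split_ifs <;> linarith
    · rw [Set.not_nonempty_iff_eq_empty, Set.compl_empty_iff] at hZc
      rw [hZc, hbu, if_pos (Set.mem_univ r), zero_add]) (by
    intro Z hZ hout hN
    by_cases hZc : Zᶜ.Nonempty
    · have h1 := hd Zᶜ hZc (by rwa [compl_compl]) (noIn_compl hout) (nsep_compl hN)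
      rw [hcompl] at h1
      split_ifs <;> linarith
    · rw [Set.not_nonempty_iff_eq_empty, Set.compl_empty_iff] at hZc
      rw [hZc, hbu, if_pos (Set.mem_univ r), zero_add]) Sum.swap (fun p => Sum.swap_swap p) (by
    rintro (v | v) <;> rfl)
  have hs : ∃ σ : V → ℤ, ∀ v, σ v = if Odd (b v) then ε (Sum.inl v) else 0 := ⟨_, fun _ => rfl⟩
  obtain ⟨σ, hσ⟩ := hs
  have e1 : (fun v => if Odd (b v) then ε (Sum.inl v) else 0) = σ := by
    funext v
    rw [hσ]
  have e2 : (fun v => if Odd (b v) then ε (Sum.inr v) else 0) = fun v => - σ v := by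
    funext v
    rw [hσ]
    by_cases ho : Odd (b v)
    · rw [if_pos ho, if_pos ho]
      exact hε2 (Sum.inl v) ho (by simp)
    · rw [if_neg ho, if_neg ho, neg_zero]
  rw [e1] at hε3
  rw [e2] at hε4
  have hσu : xs σ Set.univ = 0 := by
    have := hε3 Set.univ ⟨r, trivial⟩ (fun _ _ => trivial) (fun ⟨_, m, _, h⟩ => h trivial)
    rw [hbu, if_pos (Set.mem_univ r)] at this
    have h0 : |xs σ Set.univ| ≤ 0 := by linarith
    exact abs_eq_zero.1 (le_antisymm h0 (abs_nonneg _))
  have hbd : ∀ U : Set V, U.Nonempty → Uᶜ.Nonempty → NoIn s t U → ¬ NSep N U →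
      |xs σ U| ≤ xs b U - 2 * K := by
    intro U hU hUc hin hN
    by_cases hr : r ∈ U
    · have h1 := hε4 Uᶜ hUc (noOut_compl hin) (nsep_compl hN)
      rw [if_neg (fun h => h hr), xs_neg', abs_neg, hcompl] at h1
      have h2 : xs σ Uᶜ = - xs σ U := by
        have := xs_add_compl σ U
        linarith
      rw [h2, abs_neg] at h1
      linarith
    · have h1 := hε3 U hU hin hN
      rw [if_neg hr] at h1
      linarith
  have hex : ∀ v, ∃ m : ℤ, 2 * m = b v - σ v := by
    intro v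
    by_cases ho : Odd (b v)
    · obtain ⟨m, hm⟩ := ho
      rcases hε1 (Sum.inl v) with h | h
      · exact ⟨m, by rw [hσ, if_pos ⟨m, hm⟩, h]; omega⟩
      · exact ⟨m + 1, by rw [hσ, if_pos ⟨m, hm⟩, h]; omega⟩
    · obtain ⟨m, hm⟩ := Int.not_odd_iff_even.1 ho
      exact ⟨m, by rw [hσ, if_neg ho]; omega⟩
  choose b₁ hb₁ using hex
  have hx1 : ∀ U : Set V, 2 * xs b₁ U = xs b U - xs σ U := by
    intro U
    rw [← xs_smul, ← xs_sub']
    congr 1
    funext v
    exact hb₁ v
  have hx2 : ∀ U : Set V, xs (fun v => b v - b₁ v) U = xs b U - xs b₁ U :=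
    fun U => xs_sub' _ _ U
  refine ⟨b₁, fun v => b v - b₁ v, fun v => by ring, ?_, ?_, fun U hU hUc hin hN => ?_⟩
  · have := hx1 Set.univ
    rw [hbu, hσu] at this
    linarith
  · have := hx1 Set.univ
    rw [hx2, hbu]
    rw [hbu, hσu] at this
    linarith
  · have h1 := hx1 U
    have h2 := hx2 U
    have h3 := abs_le.1 (hbd U hU hUc hin hN)
    rw [h2]
    constructor <;> linarith

/-- a set of arcs with at least `4 k` members in every directed cut not separating `N` -/
theorem four_sub {k : ℕ} (hk : 3 ≤ k) (s t : A → V) (s' t' : B → V)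
    (hB : ∀ e : B, ∃ a : A, s a = s' e ∧ t a = t' e) (N : Set V)
    (hd4 : ∀ U : Set V, U.Nonempty → Uᶜ.Nonempty → NoIn s t U → ¬ NSep N U →
      4 * k ≤ dd s' t' U) :
    ∃ O : B → Bool, ∀ U : Set V, U.Nonempty → Uᶜ.Nonempty → NoIn s t U → ¬ NSep N U →
      k ≤ inn s' t' O U ∧ k ≤ inn s' t' O Uᶜ := by
  rcases isEmpty_or_nonempty V with hV | ⟨⟨r⟩⟩
  · exact ⟨fun _ => true, fun U hU => (hV.false hU.some).elim⟩
  have hin' : ∀ U : Set V, NoIn s t U → NoIn s' t' U := by
    intro U h e he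
    obtain ⟨a, h1, h2⟩ := hB e
    rw [← h1]
    exact h a (by rw [h2]; exact he)
  obtain ⟨μ, hinv, hoddd, hdM0, -⟩ := flow_pair (A := B) 0 s' t' r r (fun U _ _ _ => by simp)
  have hbu : xs (bb s' t') Set.univ = 0 := by
    rw [xs_bb]
    simp
  obtain ⟨b₁, b₂, hb, hb1u, hb2u, hbU⟩ := halve_vec (K := 2 * k) (by omega) s t N (bb s' t') hbu
    (fun U hU hUc hin h => by
      have h1 : ((4 * k : ℕ) : ℤ) ≤ dd s' t' U := by exact_mod_cast hd4 U hU hUc hin h
      rw [xs_bb_noIn s' t' U (hin' U hin)]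
      push_cast at h1 ⊢
      linarith)
  have hodd : ∀ v, μ v ≠ v ↔ Odd (bb s' t' v) := fun v => by rw [odd_bb]; exact hoddd v
  -- the odd slot of an odd vertex
  let sl : V → V ⊕ V := fun v => if Odd (b₁ v) then Sum.inl v else Sum.inr v
  let pr : V ⊕ V → V := Sum.elim id id
  have hprsl : ∀ v, pr (sl v) = v := by
    intro v
    simp only [sl]
    split_ifs <;> rfl
  have hxor : ∀ v, Odd (bb s' t' v) ↔ (Odd (b₁ v) ↔ ¬ Odd (b₂ v)) := by
    intro v
    rw [← hb, Int.odd_add, ← Int.not_odd_iff_even]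
  let ν : V ⊕ V → V ⊕ V := fun p => if Odd (bb s' t' (pr p)) then
    (if p = sl (pr p) then sl (μ (pr p)) else p) else p.swap
  have hoddμ : ∀ v, Odd (bb s' t' (μ v)) ↔ Odd (bb s' t' v) := by
    intro v
    rw [← hodd, ← hodd, hinv]
    exact ⟨fun h h' => h h'.symm, fun h h' => h h'.symm⟩
  have hν1 : ∀ p, Odd (bb s' t' (pr p)) → p = sl (pr p) → ν p = sl (μ (pr p)) := by
    intro p ho hp
    show (if Odd (bb s' t' (pr p)) then (if p = sl (pr p) then sl (μ (pr p)) else p) else
      p.swap) = _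
    rw [if_pos ho, if_pos hp]
  have hν2 : ∀ p, Odd (bb s' t' (pr p)) → p ≠ sl (pr p) → ν p = p := by
    intro p ho hp
    show (if Odd (bb s' t' (pr p)) then (if p = sl (pr p) then sl (μ (pr p)) else p) else
      p.swap) = _
    rw [if_pos ho, if_neg hp]
  have hν3 : ∀ p, ¬ Odd (bb s' t' (pr p)) → ν p = p.swap := by
    intro p ho
    show (if Odd (bb s' t' (pr p)) then (if p = sl (pr p) then sl (μ (pr p)) else p) else
      p.swap) = _
    rw [if_neg ho]
  have hνν : ∀ p, ν (ν p) = p := by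
    intro p
    by_cases ho : Odd (bb s' t' (pr p))
    · by_cases hp : p = sl (pr p)
      · rw [hν1 p ho hp, hν1 (sl (μ (pr p))) (by rw [hprsl]; exact (hoddμ _).2 ho)
          (by rw [hprsl]), hprsl, hinv]
        exact hp.symm
      · rw [hν2 p ho hp, hν2 p ho hp]
    · have h2 : pr p.swap = pr p := by
        rcases p with v | v <;> rfl
      rw [hν3 p ho, hν3 p.swap (by rw [h2]; exact ho), Sum.swap_swap]
  have hslodd : ∀ v, Odd (bb s' t' v) → Odd (Sum.elim b₁ b₂ (sl v)) := by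
    intro v ho
    by_cases h1 : Odd (b₁ v)
    · have : sl v = Sum.inl v := if_pos h1
      rw [this]
      exact h1
    · have : sl v = Sum.inr v := if_neg h1
      rw [this]
      have := (hxor v).1 ho
      show Odd (b₂ v)
      tauto
  have hνodd : ∀ p, Odd (Sum.elim b₁ b₂ (ν p)) ↔ Odd (Sum.elim b₁ b₂ p) := by
    intro p
    by_cases ho : Odd (bb s' t' (pr p))
    · by_cases hp : p = sl (pr p)
      · rw [hν1 p ho hp]
        constructor
        · intro _
          rw [hp]
          exact hslodd _ ho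
        · intro _
          exact hslodd _ ((hoddμ _).2 ho)
      · rw [hν2 p ho hp]
    · rw [hν3 p ho]
      rcases p with v | v
      · have h3 := hxor v
        have h4 : ¬ Odd (bb s' t' v) := ho
        show Odd (b₂ v) ↔ Odd (b₁ v)
        tauto
      · have h3 := hxor v
        have h4 : ¬ Odd (bb s' t' v) := ho
        show Odd (b₁ v) ↔ Odd (b₂ v)
        tauto
  have hkpos : (0 : ℤ) ≤ k := by positivity
  obtain ⟨ε, hε1, hε2, hε3, hε4⟩ := slot2 hk s t N r b₁ b₂ (by
    intro Z hZ hin hNZ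
    by_cases hZc : Zᶜ.Nonempty
    · have h1 := (hbU Z hZ hZc hin hNZ).1
      push_cast at h1
      split_ifs <;> linarith
    · rw [Set.not_nonempty_iff_eq_empty, Set.compl_empty_iff] at hZc
      rw [hZc, hb1u, if_pos (Set.mem_univ r), zero_add]) (by
    intro Z hZ hout hNZ
    by_cases hZc : Zᶜ.Nonempty
    · have h1 := (hbU Zᶜ hZc (by rwa [compl_compl]) (noIn_compl hout) (nsep_compl hNZ)).2
      have h2 := xs_add_compl b₂ Z
      push_cast at h1
      split_ifs <;> linarith
    · rw [Set.not_nonempty_iff_eq_empty, Set.compl_empty_iff] at hZc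
      rw [hZc, hb2u, if_pos (Set.mem_univ r), zero_add]) ν hνν hνodd
  -- the sign vector
  obtain ⟨σ, hσdef⟩ : ∃ σ : V → ℤ, ∀ v, σ v = (if Odd (b₁ v) then ε (Sum.inl v) else 0) +
    (if Odd (b₂ v) then ε (Sum.inr v) else 0) := ⟨_, fun _ => rfl⟩
  have hσodd : ∀ v, Odd (bb s' t' v) → σ v = ε (sl v) := by
    intro v ho
    have h1 := (hxor v).1 ho
    rw [hσdef]
    by_cases h2 : Odd (b₁ v)
    · have h3 : ¬ Odd (b₂ v) := h1.1 h2
      show (if Odd (b₁ v) then ε (Sum.inl v) else 0) +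
        (if Odd (b₂ v) then ε (Sum.inr v) else 0) = ε (if Odd (b₁ v) then Sum.inl v else Sum.inr v)
      rw [if_pos h2, if_neg h3, if_pos h2, add_zero]
    · have h3 : Odd (b₂ v) := by tauto
      show (if Odd (b₁ v) then ε (Sum.inl v) else 0) +
        (if Odd (b₂ v) then ε (Sum.inr v) else 0) = ε (if Odd (b₁ v) then Sum.inl v else Sum.inr v)
      rw [if_neg h2, if_pos h3, if_neg h2, zero_add]
  have hσeven : ∀ v, ¬ Odd (bb s' t' v) → σ v = 0 := by
    intro v ho
    have h1 := hxor v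
    rw [hσdef]
    by_cases h2 : Odd (b₁ v)
    · have h3 : Odd (b₂ v) := by tauto
      have h4 : ν (Sum.inl v) = Sum.inr v := hν3 (Sum.inl v) ho
      have h5 := hε2 (Sum.inl v) h2 (by rw [h4]; simp)
      rw [h4] at h5
      rw [if_pos h2, if_pos h3, h5]
      ring
    · have h3 : ¬ Odd (b₂ v) := by tauto
      rw [if_neg h2, if_neg h3, add_zero]
  have hσμ : ∀ v, σ (μ v) = - σ v := by
    intro v
    by_cases ho : Odd (bb s' t' v)
    · rw [hσodd v ho, hσodd _ ((hoddμ v).2 ho)]
      have h1 : ν (sl v) = sl (μ v) := by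
        rw [hν1 (sl v) (by rw [hprsl]; exact ho) (by rw [hprsl]), hprsl]
      rw [← h1]
      refine hε2 _ (hslodd v ho) ?_
      rw [h1]
      intro h2
      apply (hodd v).2 ho
      rw [← hprsl (μ v), h2, hprsl]
    · have h1 : μ v = v := by
        by_contra hc
        exact ho ((hodd v).1 hc)
      rw [h1, hσeven v ho, neg_zero]
  have habs : ∀ v, |σ v| ≤ 1 := by
    intro v
    by_cases ho : Odd (bb s' t' v)
    · rw [hσodd v ho]
      rcases hε1 (sl v) with h | h <;> rw [h] <;> simp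
    · rw [hσeven v ho]
      simp
  have hxσ : ∀ U, xs σ U = xs (fun v => if Odd (b₁ v) then ε (Sum.inl v) else 0) U +
      xs (fun v => if Odd (b₂ v) then ε (Sum.inr v) else 0) U := by
    intro U
    rw [← xs_add']
    congr 1
    funext v
    exact hσdef v
  have htot : xs σ Set.univ = 0 := by
    have := abs_xs_le μ hinv σ hσμ habs Set.univ
    have h0 : dM μ Set.univ = 0 := by
      unfold dM
      exact sum_eq_zero fun u _ => by simp
    rw [h0] at this
    exact abs_eq_zero.1 (le_antisymm this (abs_nonneg _))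
  obtain ⟨O, hO⟩ := hakimi s' t' σ (by
    intro u
    by_cases h : Odd (bb s' t' u)
    · have h5 : Odd (dd s' t' {u} : ℤ) := (Int.odd_coe_nat _).2 ((odd_bb s' t' u).1 h)
      rw [hσodd u h]
      rcases hε1 (sl u) with h | h <;> rw [h]
      · exact odd_one.add_odd h5
      · exact odd_neg_one.add_odd h5
    · rw [hσeven u h, zero_add]
      rw [odd_bb] at h
      rw [Int.even_coe_nat]
      exact Nat.not_odd_iff_even.1 h) htot (by
    intro U
    refine (le_abs_self _).trans ((abs_xs_le μ hinv σ hσμ habs U).trans ?_)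
    exact_mod_cast hdM0 U)
  have key : ∀ U : Set V, U.Nonempty → Uᶜ.Nonempty → NoIn s t U → ¬ NSep N U →
      |xs σ U| ≤ dd s' t' U - 2 * k := by
    intro U hU hUc hin hNU
    have h1 := hε3 U hU hin hNU
    have h2 := hε4 Uᶜ hUc (noOut_compl hin) (nsep_compl hNU)
    have h3 := hxσ U
    have h4 := xs_add_compl (fun v => if Odd (b₂ v) then ε (Sum.inr v) else 0) U
    have h5 : xs (fun v => if Odd (b₂ v) then ε (Sum.inr v) else 0) Set.univ = 0 := by
      have h6 := hε4 Set.univ ⟨r, trivial⟩ (fun _ _ => trivial)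
        (fun ⟨_, m, _, h⟩ => h trivial)
      rw [hb2u, if_pos (Set.mem_univ r)] at h6
      have h7 : |xs (fun v => if Odd (b₂ v) then ε (Sum.inr v) else 0) Set.univ| ≤ 0 := by
        linarith
      exact abs_eq_zero.1 (le_antisymm h7 (abs_nonneg _))
    rw [h5] at h4
    have h6 := abs_add_le (xs (fun v => if Odd (b₁ v) then ε (Sum.inl v) else 0) U)
      (xs (fun v => if Odd (b₂ v) then ε (Sum.inr v) else 0) U)
    have h7 : |xs (fun v => if Odd (b₂ v) then ε (Sum.inr v) else 0) Uᶜ| =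
        |xs (fun v => if Odd (b₂ v) then ε (Sum.inr v) else 0) U| := by
      rw [show xs (fun v => if Odd (b₂ v) then ε (Sum.inr v) else 0) Uᶜ =
        - xs (fun v => if Odd (b₂ v) then ε (Sum.inr v) else 0) U by linarith, abs_neg]
    have h8 := xs_add_compl b₂ U
    have h9 : xs b₁ U + xs b₂ U = dd s' t' U := by
      rw [← xs_add', ← xs_bb_noIn s' t' U (hin' U hin)]
      congr 1
      funext v
      exact hb v
    rw [h7] at h2
    rw [h3]
    by_cases hr : r ∈ U
    · rw [if_pos hr] at h1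
      rw [if_neg (fun h => h hr)] at h2
      linarith
    · rw [if_neg hr] at h1
      rw [if_pos (show r ∈ Uᶜ from hr)] at h2
      linarith
  refine ⟨O, fun U hU hUc hin hNU => ?_⟩
  have h1 := key U hU hUc hin hNU
  have h5 := hO U
  have h6 := inn_add_compl s' t' O U
  have h7 := (abs_le.1 h1)
  zify
  zify at h6
  constructor <;> linarith [h7.1, h7.2]

end FK9e
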