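import Pool.Agent.Lib_MP_9e7d46_os.Cover

/-!
# The slot theorem on two copies of the vertex set

Copy 1 carries the source sides, copy 2 the sink sides of the directed cuts which do not separate two
members of `N`.
-/

set_option autoImplicit false
set_option linter.unusedSectionVars false

namespace FK9e
open Finset Classical Pool.Agent.DJ9e OS9e

variable {V A : Type} [Fintype V] [Fintype A]

/-- reachability by arcs and by jumps inside `N` -/
def RN (s t : A → V) (N : Set V) (u v : V) : Prop :=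
  Relation.ReflTransGen (fun x y => (∃ a, s a = x ∧ t a = y) ∨ (x ∈ N ∧ y ∈ N)) u v

theorem noOut_of_rn {s t : A → V} {N Z : Set V} (h : ∀ u ∈ Z, ∀ v, RN s t N u v → v ∈ Z) :
    NoOut s t Z ∧ ¬ NSep N Z := by
  refine ⟨fun a ha => h _ ha _ (Relation.ReflTransGen.single (Or.inl ⟨a, rfl, rfl⟩)), ?_⟩
  rintro ⟨⟨n, hn, hnZ⟩, m, hm, hmZ⟩
  exact hmZ (h _ hnZ _ (Relation.ReflTransGen.single (Or.inr ⟨hn, hm⟩)))

theorem noIn_of_rn {s t : A → V} {N Z : Set V} (h : ∀ u ∈ Z, ∀ v, RN s t N v u → v ∈ Z) :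
    NoIn s t Z ∧ ¬ NSep N Z := by
  refine ⟨fun a ha => h _ ha _ (Relation.ReflTransGen.single (Or.inl ⟨a, rfl, rfl⟩)), ?_⟩
  rintro ⟨⟨n, hn, hnZ⟩, m, hm, hmZ⟩
  exact hmZ (h _ hnZ _ (Relation.ReflTransGen.single (Or.inr ⟨hm, hn⟩)))

theorem closed_rn_of_noOut {s t : A → V} {N Z : Set V} (h : NoOut s t Z) (hN : ¬ NSep N Z)
    {u v : V} (hu : u ∈ Z) (huv : RN s t N u v) : v ∈ Z := by
  unfold RN at huv
  induction huv with
  | refl => exact hu
  | tail _ hbc ih =>
    rcases hbc with ⟨a, rfl, rfl⟩ | ⟨h1, h2⟩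
    · exact h a ih
    · by_contra hc
      exact hN ⟨⟨_, h1, ih⟩, _, h2, hc⟩

theorem closed_rn_of_noIn {s t : A → V} {N Z : Set V} (h : NoIn s t Z) (hN : ¬ NSep N Z)
    {u v : V} (hu : u ∈ Z) (huv : RN s t N v u) : v ∈ Z := by
  unfold RN at huv
  induction huv using Relation.ReflTransGen.head_induction_on with
  | refl => exact hu
  | head hab _ ih =>
    rcases hab with ⟨a, rfl, rfl⟩ | ⟨h1, h2⟩
    · exact h a ih
    · by_contra hc
      exact hN ⟨⟨_, h2, ih⟩, _, h1, hc⟩

theorem xs_ite_eq (r : V) (c : ℤ) (Z : Set V) :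
    xs (fun v => if v = r then c else 0) Z = if r ∈ Z then c else 0 := by
  unfold xs
  rw [sum_eq_single r]
  · simp
  · intro v _ hv
    simp [hv]
  · intro h
    exact absurd (mem_univ _) h

/-- the slot theorem for the source sides (weights `f`) and the sink sides (weights `g`) -/
theorem slot2 {K : ℕ} (hK : 3 ≤ K) (s t : A → V) (N : Set V) (r : V) (f g : V → ℤ)
    (h1 : ∀ Z : Set V, Z.Nonempty → NoIn s t Z → ¬ NSep N Z →
      (2 * K : ℤ) ≤ xs f Z + if r ∈ Z then (2 * K : ℤ) else 0)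
    (h2 : ∀ Z : Set V, Z.Nonempty → NoOut s t Z → ¬ NSep N Z →
      xs g Z + 2 * K ≤ if r ∈ Z then (2 * K : ℤ) else 0)
    (μ : V ⊕ V → V ⊕ V) (hμ : ∀ p, μ (μ p) = p)
    (hodd : ∀ p, Odd (Sum.elim f g (μ p)) ↔ Odd (Sum.elim f g p)) :
    ∃ ε : V ⊕ V → ℤ, (∀ p, ε p = 1 ∨ ε p = -1) ∧
      (∀ p, Odd (Sum.elim f g p) → μ p ≠ p → ε (μ p) = - ε p) ∧
      (∀ Z : Set V, Z.Nonempty → NoIn s t Z → ¬ NSep N Z →
        |xs (fun v => if Odd (f v) then ε (Sum.inl v) else 0) Z| ≤
          xs f Z + (if r ∈ Z then (2 * K : ℤ) else 0) - 2 * K) ∧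
      (∀ Z : Set V, Z.Nonempty → NoOut s t Z → ¬ NSep N Z →
        |xs (fun v => if Odd (g v) then ε (Sum.inr v) else 0) Z| ≤
          - xs g Z + (if r ∈ Z then (2 * K : ℤ) else 0) - 2 * K) := by
  let R : V ⊕ V → V ⊕ V → Prop := fun p q => match p, q with
    | Sum.inl u, Sum.inl v => RN s t N v u
    | Sum.inr u, Sum.inr v => RN s t N u v
    | _, _ => False
  let y : V ⊕ V → ℤ := Sum.elim (fun v => - f v - if v = r then (2 * K : ℤ) else 0)
    (fun v => g v - if v = r then (2 * K : ℤ) else 0)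
  have hyo : ∀ p, Odd (y p) ↔ Odd (Sum.elim f g p) := by
    rintro (v | v)
    · simp only [y, Sum.elim_inl]
      rw [Int.odd_sub, odd_neg]
      have : Even (if v = r then (2 * K : ℤ) else 0) := by
        split_ifs
        · exact even_two_mul _
        · exact Even.zero
      simp [this]
    · simp only [y, Sum.elim_inr]
      rw [Int.odd_sub]
      have : Even (if v = r then (2 * K : ℤ) else 0) := by
        split_ifs
        · exact even_two_mul _
        · exact Even.zero
      simp [this]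
  have hr : ∀ p, R p p := by
    rintro (v | v) <;> exact Relation.ReflTransGen.refl
  have ht : ∀ p q w, R p q → R q w → R p w := by
    rintro (u | u) (v | v) (w | w) h3 h4
    · exact Relation.ReflTransGen.trans h4 h3
    · exact absurd h4 (fun h => h)
    · exact absurd h3 (fun h => h)
    · exact absurd h3 (fun h => h)
    · exact absurd h3 (fun h => h)
    · exact absurd h3 (fun h => h)
    · exact absurd h4 (fun h => h)
    · exact Relation.ReflTransGen.trans h3 h4
  -- sums over the two copies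
  have hsum1 : ∀ Z : Set V, ∑ v ∈ univ.filter (fun v => v ∈ Z), y (Sum.inl v) =
      - xs f Z - if r ∈ Z then (2 * K : ℤ) else 0 := by
    intro Z
    rw [← xs_ite_eq r (2 * K : ℤ) Z, sum_filter]
    unfold xs
    rw [← sum_neg_distrib, ← sum_sub_distrib]
    refine sum_congr rfl fun v _ => ?_
    by_cases hv : v ∈ Z <;> simp [y, hv]
  have hsum2 : ∀ Z : Set V, ∑ v ∈ univ.filter (fun v => v ∈ Z), y (Sum.inr v) =
      xs g Z - if r ∈ Z then (2 * K : ℤ) else 0 := by
    intro Z
    rw [← xs_ite_eq r (2 * K : ℤ) Z, sum_filter]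
    unfold xs
    rw [← sum_sub_distrib]
    refine sum_congr rfl fun v _ => ?_
    by_cases hv : v ∈ Z <;> simp [y, hv]
  have g1 : ∀ Z : Set V, Z.Nonempty → NoIn s t Z → ¬ NSep N Z →
      ∑ v ∈ univ.filter (fun v => v ∈ Z), y (Sum.inl v) ≤ -(2 * K : ℤ) := by
    intro Z hne c1 c2
    have h3 := h1 _ hne c1 c2
    have h4 := hsum1 Z
    linarith
  have g2 : ∀ Z : Set V, Z.Nonempty → NoOut s t Z → ¬ NSep N Z →
      ∑ v ∈ univ.filter (fun v => v ∈ Z), y (Sum.inr v) ≤ -(2 * K : ℤ) := by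
    intro Z hne c1 c2
    have h3 := h2 _ hne c1 c2
    have h4 := hsum2 Z
    linarith
  have hsplit : ∀ (Z : Finset (V ⊕ V)) (w : V ⊕ V → ℤ), ∑ p ∈ Z, w p =
      ∑ v ∈ univ.filter (fun v => v ∈ {v : V | Sum.inl v ∈ Z}), w (Sum.inl v) +
      ∑ v ∈ univ.filter (fun v => v ∈ {v : V | Sum.inr v ∈ Z}), w (Sum.inr v) := by
    intro Z w
    have : ∑ p ∈ Z, w p = ∑ p : V ⊕ V, if p ∈ Z then w p else 0 := by
      rw [← sum_filter]
      congr 1
      ext p
      simp
    rw [this, Fintype.sum_sum_type, sum_filter, sum_filter]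
    rfl
  have hy : ∀ Z : Finset (V ⊕ V), Z.Nonempty → (∀ u ∈ Z, ∀ v, R u v → v ∈ Z) →
      ∑ v ∈ Z, y v ≤ -(2 * K : ℤ) := by
    intro Z hZ hc
    rw [hsplit Z y]
    have c1 := noIn_of_rn (s := s) (t := t) (N := N) (Z := {v : V | Sum.inl v ∈ Z})
      (fun u hu v hv => hc _ hu (Sum.inl v) hv)
    have c2 := noOut_of_rn (s := s) (t := t) (N := N) (Z := {v : V | Sum.inr v ∈ Z})
      (fun u hu v hv => hc _ hu (Sum.inr v) hv)
    have e1 : ({v : V | Sum.inl v ∈ Z} : Set V).Nonempty →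
        ∑ v ∈ univ.filter (fun v => v ∈ {v : V | Sum.inl v ∈ Z}), y (Sum.inl v) ≤
          -(2 * K : ℤ) := by
      intro hne
      refine le_trans (le_of_eq ?_) (g1 _ hne c1.1 c1.2)
      congr!
    have e2 : ({v : V | Sum.inr v ∈ Z} : Set V).Nonempty →
        ∑ v ∈ univ.filter (fun v => v ∈ {v : V | Sum.inr v ∈ Z}), y (Sum.inr v) ≤
          -(2 * K : ℤ) := by
      intro hne
      refine le_trans (le_of_eq ?_) (g2 _ hne c2.1 c2.2)
      congr!
    have e3 : ¬ ({v : V | Sum.inl v ∈ Z} : Set V).Nonempty →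
        ∑ v ∈ univ.filter (fun v => v ∈ {v : V | Sum.inl v ∈ Z}), y (Sum.inl v) = 0 := by
      intro hne
      apply sum_eq_zero
      intro v hv
      exact absurd ⟨v, (mem_filter.1 hv).2⟩ hne
    have e4 : ¬ ({v : V | Sum.inr v ∈ Z} : Set V).Nonempty →
        ∑ v ∈ univ.filter (fun v => v ∈ {v : V | Sum.inr v ∈ Z}), y (Sum.inr v) = 0 := by
      intro hne
      apply sum_eq_zero
      intro v hv
      exact absurd ⟨v, (mem_filter.1 hv).2⟩ hne
    have hKpos : (0 : ℤ) ≤ 2 * K := by positivity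
    by_cases n1 : ({v : V | Sum.inl v ∈ Z} : Set V).Nonempty
    · by_cases n2 : ({v : V | Sum.inr v ∈ Z} : Set V).Nonempty
      · have := e1 n1
        have := e2 n2
        linarith
      · have := e1 n1
        have := e4 n2
        linarith
    · by_cases n2 : ({v : V | Sum.inr v ∈ Z} : Set V).Nonempty
      · have := e3 n1
        have := e2 n2
        linarith
      · exfalso
        obtain ⟨p, hp⟩ := hZ
        rcases p with v | v
        · exact n1 ⟨v, hp⟩
        · exact n2 ⟨v, hp⟩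
  obtain ⟨ε, hε1, hε2, hε3⟩ := slot hK hr ht y hy μ hμ (fun p => by rw [hyo, hyo]; exact hodd p)
  refine ⟨ε, hε1, fun p hp => hε2 p ((hyo p).2 hp), fun Z hZ hin hN => ?_,
    fun Z hZ hout hN => ?_⟩
  · let Z' : Finset (V ⊕ V) := (univ.filter (fun v => v ∈ Z)).map Function.Embedding.inl
    have hmem : ∀ v, Sum.inl v ∈ Z' ↔ v ∈ Z := by
      intro v
      simp [Z']
    have hmem' : ∀ v, Sum.inr v ∉ Z' := by
      intro v
      simp [Z']
    have h3 := hε3 Z' (by
      obtain ⟨v, hv⟩ := hZ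
      exact ⟨Sum.inl v, (hmem v).2 hv⟩) (by
      rintro (u | u) hu (v | v) huv
      · exact (hmem v).2 (closed_rn_of_noIn hin hN ((hmem u).1 hu) huv)
      · exact absurd huv (fun h => h)
      · exact absurd hu (hmem' u)
      · exact absurd hu (hmem' u))
    have e1 : ∑ p ∈ Z', y p = - xs f Z - if r ∈ Z then (2 * K : ℤ) else 0 := by
      rw [← hsum1, sum_map]
      rfl
    have e2 : ∑ p ∈ Z', (if Odd (y p) then ε p else 0) =
        xs (fun v => if Odd (f v) then ε (Sum.inl v) else 0) Z := by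
      rw [sum_map, sum_filter]
      unfold xs
      refine sum_congr rfl fun v _ => ?_
      have : Odd (y (Sum.inl v)) ↔ Odd (f v) := hyo (Sum.inl v)
      by_cases hv : v ∈ Z
      · rw [if_pos hv, if_pos hv]
        show (if Odd (y (Sum.inl v)) then ε (Sum.inl v) else 0) =
          (if Odd (f v) then ε (Sum.inl v) else 0)
        by_cases ho : Odd (f v)
        · rw [if_pos (this.2 ho), if_pos ho]
        · rw [if_neg (fun h => ho (this.1 h)), if_neg ho]
      · rw [if_neg hv, if_neg hv]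
    rw [e1, e2] at h3
    linarith
  · let Z' : Finset (V ⊕ V) := (univ.filter (fun v => v ∈ Z)).map Function.Embedding.inr
    have hmem : ∀ v, Sum.inr v ∈ Z' ↔ v ∈ Z := by
      intro v
      simp [Z']
    have hmem' : ∀ v, Sum.inl v ∉ Z' := by
      intro v
      simp [Z']
    have h3 := hε3 Z' (by
      obtain ⟨v, hv⟩ := hZ
      exact ⟨Sum.inr v, (hmem v).2 hv⟩) (by
      rintro (u | u) hu (v | v) huv
      · exact absurd hu (hmem' u)
      · exact absurd hu (hmem' u)
      · exact absurd huv (fun h => h)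
      · exact (hmem v).2 (closed_rn_of_noOut hout hN ((hmem u).1 hu) huv))
    have e1 : ∑ p ∈ Z', y p = xs g Z - if r ∈ Z then (2 * K : ℤ) else 0 := by
      rw [← hsum2, sum_map]
      rfl
    have e2 : ∑ p ∈ Z', (if Odd (y p) then ε p else 0) =
        xs (fun v => if Odd (g v) then ε (Sum.inr v) else 0) Z := by
      rw [sum_map, sum_filter]
      unfold xs
      refine sum_congr rfl fun v _ => ?_
      have : Odd (y (Sum.inr v)) ↔ Odd (g v) := hyo (Sum.inr v)
      by_cases hv : v ∈ Z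
      · rw [if_pos hv, if_pos hv]
        show (if Odd (y (Sum.inr v)) then ε (Sum.inr v) else 0) =
          (if Odd (g v) then ε (Sum.inr v) else 0)
        by_cases ho : Odd (g v)
        · rw [if_pos (this.2 ho), if_pos ho]
        · rw [if_neg (fun h => ho (this.1 h)), if_neg ho]
      · rw [if_neg hv, if_neg hv]
    rw [e1, e2] at h3
    linarith

end FK9e
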